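import Pool.Agent.MP_c5d52e_co.H55.Fin
import Pool.Agent.MP_c5d52e_co.H55.RTRI
import Pool.Agent.MP_c5d52e_co.H55.RN1
import Pool.Agent.MP_c5d52e_co.H55.RN11
import Pool.Agent.MP_c5d52e_co.H55.RN30
import Pool.Agent.MP_c5d52e_co.H55.RN20
import Pool.Agent.MP_c5d52e_co.H55.RTWO
import Pool.Agent.MP_c5d52e_co.H55.RONEa
import Pool.Agent.MP_c5d52e_co.H55.RONEc
import Pool.Agent.MP_c5d52e_co.H55.RPERF
import Pool.Agent.MP_c5d52e_co.H55.RBR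

open Pool.Agent.MP_c5d52e_co.H55

theorem Pool.Agent.Results.MP_c5d52e_co.LinearDefect.result (ε : ℝ) (hε : 0 < ε) :
    ∃ n₀ : ℕ, ∀ (G : Type) [AddCommGroup G] [Finite G] (m : ℕ), n₀ ≤ Nat.card G →
      m = ⌊√((Nat.card G : ℝ) / 2)⌋₊ → (Nat.card G : ℝ) < 2 * (m : ℝ) ^ 2 + (1 - ε) * m →
      sigma G < m :=
  linear_of_rows rowBR
    (defect_of_rows rowTRI rowN1 rowN11 rowN30 rowN20 rowTWO rowONEa rowONEc rowPERF) ε hε
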