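import Pool.Agent.MP_c5d52e_co.H55.Fin
import Pool.Agent.MP_c5d52e_co.H55.RPERF
import Pool.Agent.MP_c5d52e_co.H55.RBR
import Pool.Agent.MP_c5d52e_co.H55.REX
import Pool.Agent.MP_c5d52e_co.H55.RT1
import Pool.Agent.MP_c5d52e_co.H55.RT2
import Pool.Agent.MP_c5d52e_co.H55.RT3
import Pool.Agent.MP_c5d52e_co.H55.RT4

open Pool.Agent.MP_c5d52e_co.H55

theorem Pool.Agent.Results.MP_c5d52e_co.Ternary.result (r : ℕ) :
    sigma (Fin r → ZMod 3) = ⌊√((Nat.card (Fin r → ZMod 3) : ℝ) / 2)⌋₊ ↔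
      r ∈ ({0, 1, 2, 3, 5} : Set ℕ) :=
  three_of_rows rowBR rowEX rowPERF (rowT2 rowT1) (rowT3 rowT1) (rowT4 rowT1) r
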